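import Pool.Agent.Q193.ZS.Basic

/-!
# Injective Woronowicz morphisms out of `Z*`-algebras

If `A` is a `Z*`-algebra and there is an injective Woronowicz morphism from `A` to `B` then `B` is
a `Z*`-algebra. This answers the question affirmatively.
-/

set_option autoImplicit false

namespace Pool.Agent.Results.MP_e20a4f_an.WoronowiczTransfer

open Pool.Agent.Q193.ZS

universe u v

/-- Positive answer to Q1. Here `DoubleCentralizer ℂ B` is Mathlib's multiplier algebra of `B`, and
`(f a).fst b` is the product `f(a) b`. -/
theorem result (A : Type u) (B : Type v) [NonUnitalCStarAlgebra A] [NonUnitalCStarAlgebra B]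
    (hA : IsZStar A) (f : A →⋆ₙₐ[ℂ] DoubleCentralizer ℂ B) (hinj : Function.Injective f)
    (hdense : Dense (Submodule.span ℂ {c : B | ∃ (a : A) (b : B), c = (f a).fst b} : Set B)) :
    IsZStar B := by
  intro z
  have hne : {c : B | ∃ (a : A) (b : B), c = (f a).fst b}.Nonempty := ⟨(f 0).fst 0, 0, 0, rfl⟩
  obtain ⟨g, hg, hz⟩ := exists_seq hne (hdense (star z * z))
  choose a b hab using hg
  obtain ⟨x, hx, hxa⟩ := exists_left hA a
  -- the multiplier `f x` kills `z* z`
  have hkill : (f x).fst (star z * z) = 0 := by
    have hcl : IsClosed {c : B | (f x).fst c = 0} :=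
      isClosed_eq (f x).fst.continuous continuous_const
    have hsub : (Submodule.span ℂ (Set.range g) : Set B) ⊆ {c : B | (f x).fst c = 0} := by
      intro c hc
      change (f x).fst c = 0
      rw [SetLike.mem_coe] at hc
      induction hc using Submodule.span_induction with
      | mem c hc =>
        obtain ⟨n, rfl⟩ := hc
        rw [hab n]
        have h1 : (f x * f (a n)).fst (b n) = (f x).fst ((f (a n)).fst (b n)) := rfl
        rw [← h1, ← map_mul, hxa n, map_zero]
        rfl
      | zero => rw [map_zero]
      | add c d _ _ hc hd => rw [map_add, hc, hd, add_zero]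
      | smul r c _ hc => rw [map_smul, hc, smul_zero]
    exact (hcl.closure_subset_iff.mpr hsub) hz
  have hfx : f x ≠ 0 := fun h => hx (hinj (by rw [h, map_zero]))
  obtain ⟨c, hc⟩ : ∃ c, (f x).snd c ≠ 0 := by
    by_contra hcon
    push Not at hcon
    apply hfx
    have h1 : (f x).fst = 0 := by
      ext y
      have h2 := (f x).central (star ((f x).fst y)) y
      rw [hcon, zero_mul] at h2
      exact CStarRing.star_mul_self_eq_zero_iff _ |>.mp h2.symm
    have h2 : (f x).snd = 0 := by
      ext y
      exact hcon y
    apply DoubleCentralizer.ext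
    exact Prod.ext h1 h2
  refine ⟨(f x).snd c, hc, Or.inr ?_⟩
  rw [(f x).central, hkill, mul_zero]

end Pool.Agent.Results.MP_e20a4f_an.WoronowiczTransfer
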